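import Mathlib

namespace Pool.Agent.H.MP_1d20a2_co

open Finset

theorem select {D R : Type} [Fintype D] [Fintype R] (σ : Equiv.Perm D) (face : D → R)
    (hσ : ∀ d, σ (σ (σ (σ d))) = d)
    (h1 : ∀ d, face (σ d) ≠ face d) (h2 : ∀ d, face (σ (σ d)) ≠ face d) (n : ℕ)
    (hD : Fintype.card D = 4 * n) (hR : Fintype.card R = n + 2) :
    ∃ S : Finset R, (∀ d, face d ∈ S → face (σ d) ∉ S ∧ face (σ (σ d)) ∉ S ∧
      face (σ (σ (σ d))) ∉ S) ∧ n ≤ 44 * S.card := by
  classical
  have h3 : ∀ d, face (σ (σ (σ d))) ≠ face d := fun d h => h1 (σ (σ (σ d))) (by rw [hσ, h])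
  let fib : R → Finset D := fun r => univ.filter (fun d => face d = r)
  let L : Finset R := univ.filter (fun r => (fib r).card ≤ 7)
  have hL : n ≤ 2 * L.card := by
    have e1 : (univ : Finset D).card = ∑ r ∈ (univ : Finset R), (fib r).card :=
      card_eq_sum_card_fiberwise (fun d _ => mem_coe.2 (mem_univ (face d)))
    have e2 : ∑ r ∈ Lᶜ, (fib r).card ≤ ∑ r ∈ (univ : Finset R), (fib r).card :=
      sum_le_sum_of_subset (subset_univ _)
    have e3 : Lᶜ.card • 8 ≤ ∑ r ∈ Lᶜ, (fib r).card := by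
      apply card_nsmul_le_sum
      intro r hr
      simp only [L, mem_compl, mem_filter, mem_univ, true_and, not_le] at hr
      exact hr
    have e4 : Lᶜ.card = Fintype.card R - L.card := card_compl L
    have e5 : L.card ≤ Fintype.card R := card_le_univ L
    rw [card_univ, hD] at e1
    rw [smul_eq_mul] at e3
    omega
  let good : Finset R → Prop := fun S => S ⊆ L ∧ ∀ d, face d ∈ S → face (σ d) ∉ S ∧
    face (σ (σ d)) ∉ S ∧ face (σ (σ (σ d))) ∉ S
  obtain ⟨S, hS, hmax⟩ := exists_max_image (univ.filter good) card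
    ⟨∅, by simp [good]⟩
  simp only [mem_filter, mem_univ, true_and] at hS hmax
  refine ⟨S, hS.2, ?_⟩
  let N : R → Finset R := fun s => insert s ((fib s).biUnion
    (fun d => {face (σ d), face (σ (σ d)), face (σ (σ (σ d)))}))
  have hN : ∀ s ∈ S, (N s).card ≤ 22 := by
    intro s hs
    have a1 : (fib s).card ≤ 7 := by simpa [L] using hS.1 hs
    have a2 : ((fib s).biUnion (fun d => ({face (σ d), face (σ (σ d)), face (σ (σ (σ d)))} :
        Finset R))).card ≤ (fib s).card * 3 :=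
      card_biUnion_le_card_mul _ _ _ (fun d _ => card_le_three)
    have a3 := card_insert_le s ((fib s).biUnion (fun d => ({face (σ d), face (σ (σ d)),
      face (σ (σ (σ d)))} : Finset R)))
    simp only [N]
    omega
  have hcov : L ⊆ S.biUnion N := by
    intro r hr
    by_contra hn
    simp only [mem_biUnion, not_exists, not_and] at hn
    have hrS : r ∉ S := fun h => hn r h (mem_insert_self _ _)
    have hno : ∀ d, face d ∈ S → face (σ d) ≠ r ∧ face (σ (σ d)) ≠ r ∧
        face (σ (σ (σ d))) ≠ r := by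
      intro d hd
      have := hn _ hd
      simp only [N, fib, mem_insert, mem_biUnion, mem_filter, mem_univ, true_and, mem_singleton,
        not_or, not_exists, not_and] at this
      obtain ⟨a, b, c⟩ := this.2 d rfl
      exact ⟨Ne.symm a, Ne.symm b, Ne.symm c⟩
    have hg : good (insert r S) := by
      refine ⟨insert_subset hr hS.1, fun d hd => ?_⟩
      simp only [mem_insert, not_or]
      rcases mem_insert.1 hd with h | h
      · refine ⟨⟨h ▸ h1 d, fun h' => ?_⟩, ⟨h ▸ h2 d, fun h' => ?_⟩, ⟨h ▸ h3 d, fun h' => ?_⟩⟩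
        · exact (hno _ h').2.2 (by rw [hσ, h])
        · exact (hno _ h').2.1 (by rw [hσ, h])
        · exact (hno _ h').1 (by rw [hσ, h])
      · obtain ⟨a, b, c⟩ := hno d h
        obtain ⟨a', b', c'⟩ := hS.2 d h
        exact ⟨⟨a, a'⟩, ⟨b, b'⟩, ⟨c, c'⟩⟩
    have := hmax _ hg
    rw [card_insert_of_notMem hrS] at this
    omega
  have := (card_le_card hcov).trans (card_biUnion_le_card_mul _ _ _ hN)
  omega

theorem conn {D R : Type} (σ α : Equiv.Perm D) (face : D → R) (hsurj : Function.Surjective face)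
    (hσ : ∀ d, σ (σ (σ (σ d))) = d) (hα : ∀ d, α (α d) = d)
    (hφ : ∀ d, face (α d) = face (σ d)) (h1 : ∀ d, face (σ d) ≠ face d)
    (hc : ∀ a b, Relation.EqvGen (fun x y => y = σ x ∨ y = α x) a b) (d0 : D)
    (S : Set R) (hS : ∀ d, face d ∈ S → face (σ d) ∉ S ∧ face (σ (σ d)) ∉ S ∧
      face (σ (σ (σ d))) ∉ S) :
    ((SimpleGraph.fromRel fun r s => ∃ d, face d = r ∧ face (α d) = s).induce Sᶜ).Connected := by
  classical
  set G := (SimpleGraph.fromRel fun r s => ∃ d, face d = r ∧ face (α d) = s).induce Sᶜ with hG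
  have A : ∀ d (h : face d ∉ S) (h' : face (σ d) ∉ S), G.Reachable ⟨face d, h⟩ ⟨face (σ d), h'⟩ := by
    intro d h h'
    apply SimpleGraph.Adj.reachable
    simp only [hG, SimpleGraph.comap_adj, Function.Embedding.subtype_apply,
      SimpleGraph.fromRel_adj]
    exact ⟨(h1 d).symm, Or.inl ⟨d, rfl, hφ d⟩⟩
  let ρ : D → ↥(Sᶜ) := fun d =>
    if h : face d ∈ S then ⟨face (σ d), (hS d h).1⟩ else ⟨face d, h⟩
  have ρ1 : ∀ d (h : face d ∈ S), ρ d = ⟨face (σ d), (hS d h).1⟩ := fun d h => dif_pos h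
  have ρ2 : ∀ d (h : face d ∉ S), ρ d = ⟨face d, h⟩ := fun d h => dif_neg h
  have B : ∀ d, G.Reachable (ρ d) (ρ (σ d)) := by
    intro d
    by_cases h : face d ∈ S
    · rw [ρ1 d h, ρ2 _ (hS d h).1]
    · by_cases h' : face (σ d) ∈ S
      · rw [ρ2 d h, ρ1 _ h']
        obtain ⟨a, b, c⟩ := hS _ h'
        have r1 := A _ a b
        have r2 := A _ b c
        have e : (⟨face (σ (σ (σ (σ d)))), c⟩ : ↥(Sᶜ)) = ⟨face d, h⟩ := Subtype.ext (by simp [hσ])
        rw [e] at r2
        exact (r1.trans r2).symm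
      · rw [ρ2 d h, ρ2 _ h']
        exact A d h h'
  have C0 : ∀ d, face d ∈ S → ρ d = ρ (α d) := by
    intro d h
    have h' : face (α d) ∉ S := by rw [hφ]; exact (hS d h).1
    rw [ρ1 d h, ρ2 _ h']
    exact Subtype.ext (hφ d).symm
  have C : ∀ d, G.Reachable (ρ d) (ρ (α d)) := by
    intro d
    by_cases h : face d ∈ S
    · rw [C0 d h]
    · by_cases h' : face (α d) ∈ S
      · rw [C0 _ h', hα]
      · have h'' : face (σ d) ∉ S := by rw [← hφ]; exact h'
        have e : ρ (α d) = ⟨face (σ d), h''⟩ := by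
          rw [ρ2 _ h']; exact Subtype.ext (hφ d)
        rw [ρ2 d h, e]
        exact A d h h''
  have all : ∀ a b, G.Reachable (ρ a) (ρ b) := by
    intro a b
    induction hc a b with
    | rel x y h =>
      rcases h with rfl | rfl
      · exact B x
      · exact C x
    | refl x => rfl
    | symm x y _ ih => exact ih.symm
    | trans x y z _ _ i1 i2 => exact i1.trans i2
  haveI : Nonempty ↥(Sᶜ) := ⟨ρ d0⟩
  refine ⟨fun r s => ?_⟩
  obtain ⟨r, hr⟩ := r
  obtain ⟨s, hs⟩ := s
  obtain ⟨a, rfl⟩ := hsurj r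
  obtain ⟨b, rfl⟩ := hsurj s
  have := all a b
  rwa [ρ2 a hr, ρ2 b hs] at this

end Pool.Agent.H.MP_1d20a2_co
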