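import Mathlib

namespace Pool.Agent.H.MP_1d20a2_co

open Finset Module

abbrev K : Type := ZMod 2

theorem rank_bound {X Y T : Type} [Fintype X] [Fintype Y] [Fintype T]
    (A : (X → K) →ₗ[K] (T → K)) (B : (Y → K) →ₗ[K] (T → K))
    (h : ∀ g f, A g ⬝ᵥ B f = 0) :
    finrank K (LinearMap.range A) + finrank K (LinearMap.range B) ≤ Fintype.card T := by
  classical
  have hm : (LinearMap.toMatrix' A).transpose * LinearMap.toMatrix' B = 0 := by
    ext i j
    have := h (Pi.single i 1) (Pi.single j 1)
    simpa [Matrix.mul_apply, LinearMap.toMatrix'_apply, dotProduct] using this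
  have := Matrix.rank_add_rank_le_card_of_mul_eq_zero hm
  rw [Matrix.rank_transpose] at this
  have eA : (LinearMap.toMatrix' A).mulVecLin = A := by
    rw [← Matrix.toLin'_apply', Matrix.toLin'_toMatrix']
  have eB : (LinearMap.toMatrix' B).mulVecLin = B := by
    rw [← Matrix.toLin'_apply', Matrix.toLin'_toMatrix']
  unfold Matrix.rank at this
  rw [eA, eB] at this
  exact this

theorem orb {D : Type} [Fintype D] [DecidableEq D] (π : Equiv.Perm D) (d0 d1 : D) (hne : d0 ≠ d1)
    (h : π.SameCycle d0 d1) :
    ∃ u : D → K, (∀ d, u (Equiv.swap d0 d1 (π d)) = u d) ∧ u d0 ≠ u d1 := by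
  classical
  have hex : ∃ k : ℕ, (π ^ k) d0 = d1 := h.exists_nat_pow_eq
  set k := Nat.find hex with hk
  have hk1 : (π ^ k) d0 = d1 := Nat.find_spec hex
  have hk2 : ∀ i < k, (π ^ i) d0 ≠ d1 := fun i hi => Nat.find_min hex hi
  have hk0 : 0 < k := by
    rcases Nat.eq_zero_or_pos k with h0 | h0
    · rw [h0] at hk1
      exact absurd hk1 hne
    · exact h0
  have hO : ∀ m : ℕ, ∃ i < k, ((Equiv.swap d0 d1 * π) ^ m) d0 = (π ^ i) d0 := by
    intro m
    induction m with
    | zero => exact ⟨0, hk0, rfl⟩
    | succ m ih =>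
      obtain ⟨i, hi, e⟩ := ih
      rw [pow_succ', Equiv.Perm.mul_apply, e, Equiv.Perm.mul_apply, ← Equiv.Perm.mul_apply π,
        ← pow_succ']
      rcases Nat.lt_or_ge (i + 1) k with hl | hl
      · refine ⟨i + 1, hl, Equiv.swap_apply_of_ne_of_ne ?_ (hk2 _ hl)⟩
        intro h0
        apply hk2 (k - (i + 1)) (by omega)
        rw [← hk1]
        conv_lhs => rw [← h0]
        rw [← Equiv.Perm.mul_apply, ← pow_add]
        congr 2
        omega
      · have : i + 1 = k := by omega
        rw [this, hk1, Equiv.swap_apply_right]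
        exact ⟨0, hk0, rfl⟩
  have hn : ¬ (Equiv.swap d0 d1 * π).SameCycle d0 d1 := by
    intro hs
    obtain ⟨m, hm⟩ := hs.exists_nat_pow_eq
    obtain ⟨i, hi, e⟩ := hO m
    exact hk2 i hi (e.symm.trans hm)
  refine ⟨fun d => if (Equiv.swap d0 d1 * π).SameCycle d0 d then 1 else 0, fun d => ?_, ?_⟩
  · have : Equiv.swap d0 d1 (π d) = (Equiv.swap d0 d1 * π) d := rfl
    simp only [this, Equiv.Perm.sameCycle_apply_right]
  · simp [hn, Equiv.Perm.SameCycle.refl]

theorem two (a : K) : a + a = 0 := CharTwo.add_self_eq_zero a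

theorem transversal {D : Type} [Fintype D] (α : Equiv.Perm D) (hα : ∀ d, α (α d) = d)
    (hα' : ∀ d, α d ≠ d) : ∃ T : Finset D, (∀ d, d ∈ T ↔ α d ∉ T) ∧
      (∀ F : D → K, ∑ d, F d = ∑ e ∈ T, (F e + F (α e))) ∧ 2 * T.card = Fintype.card D := by
  classical
  let ι := Fintype.equivFin D
  let T : Finset D := univ.filter (fun d => ι d < ι (α d))
  have h1 : ∀ d, d ∈ T ↔ α d ∉ T := by
    intro d
    have : ι (α d) ≠ ι d := fun h => hα' d (ι.injective h)
    simp only [T, mem_filter, mem_univ, true_and, hα, not_lt]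
    exact ⟨le_of_lt, fun h => lt_of_le_of_ne h this.symm⟩
  have h2 : Tᶜ = T.image α := by
    ext d
    simp only [mem_compl, mem_image]
    constructor
    · intro h
      exact ⟨α d, by rw [h1, hα]; exact h, hα d⟩
    · rintro ⟨e, he, rfl⟩
      exact (h1 e).1 he
  refine ⟨T, h1, fun F => ?_, ?_⟩
  · rw [sum_add_distrib, ← sum_add_sum_compl T, h2, sum_image (fun _ _ _ _ h => α.injective h)]
  · have := card_add_card_compl T
    rw [h2, card_image_of_injective _ α.injective] at this
    omega

/-- the linear map `g ↦ δ (g ∘ p + g none • u)` -/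
def LL {D Y : Type} (α : Equiv.Perm D) (T : Finset D) (p : D → Y) (u : D → K) :
    (Option Y → K) →ₗ[K] (T → K) where
  toFun g := fun e => (g (some (p e)) + g none * u e) + (g (some (p (α e))) + g none * u (α e))
  map_add' a b := by ext e; simp only [Pi.add_apply]; ring
  map_smul' c a := by ext e; simp only [Pi.smul_apply, smul_eq_mul, RingHom.id_apply]; ring

theorem rank_ge {D Y : Type} [Fintype Y] (α : Equiv.Perm D) (hα : ∀ d, α (α d) = d)
    (T : Finset D) (hT : ∀ d, d ∈ T ↔ α d ∉ T) (p : D → Y) (hp : Function.Surjective p)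
    (u : D → K) (d0 d1 : D) (hp0 : p d0 = p d1) (hu : u d0 ≠ u d1)
    (hc : ∀ g : Option Y → K, (∀ d, g (some (p (α d))) + g none * u (α d) =
      g (some (p d)) + g none * u d) → ∀ a b, g (some (p a)) + g none * u a =
      g (some (p b)) + g none * u b) :
    Fintype.card Y ≤ finrank K (LinearMap.range (LL α T p u)) := by
  classical
  have h1 := LinearMap.finrank_range_add_finrank_ker (LL α T p u)
  rw [Module.finrank_fintype_fun_eq_card, Fintype.card_option] at h1
  let v : Option Y → K := fun o => Option.elim o 0 (fun _ => 1)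
  have h2 : LinearMap.ker (LL α T p u) ≤ Submodule.span K {v} := by
    intro g hg
    have hg' : ∀ e : T, (g (some (p e)) + g none * u e) +
        (g (some (p (α e))) + g none * u (α e)) = 0 := fun e => congrFun hg e
    have hinv : ∀ d, g (some (p (α d))) + g none * u (α d) = g (some (p d)) + g none * u d := by
      intro d
      by_cases hd : d ∈ T
      · have := hg' ⟨d, hd⟩
        exact (CharTwo.add_eq_zero.1 this).symm
      · have hd' : α d ∈ T := by
          by_contra h
          exact hd ((hT d).2 h)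
        have := hg' ⟨α d, hd'⟩
        simp only [hα] at this
        exact CharTwo.add_eq_zero.1 this
    have hall := hc g hinv
    have h0 : g none = 0 := by
      have := hall d0 d1
      rw [hp0] at this
      have h3 := add_left_cancel this
      by_contra hne
      exact hu (mul_left_cancel₀ hne h3)
    rw [Submodule.mem_span_singleton]
    refine ⟨g (some (p d0)), ?_⟩
    ext o
    rcases o with _ | y
    · simp [v, h0]
    · obtain ⟨a, rfl⟩ := hp y
      have := hall d0 a
      simpa [v, h0] using this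
  have h3 : finrank K (Submodule.span K ({v} : Set (Option Y → K))) ≤ 1 := by
    simpa using finrank_span_le_card (R := K) ({v} : Set (Option Y → K))
  have h4 := (Submodule.finrank_mono h2).trans h3
  omega

theorem split {D X R : Type} [Fintype D] [DecidableEq D] [Fintype X] [Fintype R]
    (σ α : Equiv.Perm D) (hα : ∀ d, α (α d) = d) (hα' : ∀ d, α d ≠ d)
    (hc : ∀ a b, Relation.EqvGen (fun x y => y = σ x ∨ y = α x) a b)
    (vert : D → X) (hv : Function.Surjective vert) (hvσ : ∀ d, vert (σ d) = vert d)
    (face : D → R) (hf : Function.Surjective face) (hfφ : ∀ d, face (σ (α d)) = face d)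
    (hcard : Fintype.card D < 2 * (Fintype.card X + Fintype.card R))
    (d0 d1 : D) (hne : d0 ≠ d1) (s1 : σ.SameCycle d0 d1) (s2 : (σ * α).SameCycle d0 d1)
    (v01 : vert d0 = vert d1) (f01 : face d0 = face d1) :
    ∃ g : D → K, (∀ d, g (Equiv.swap d0 d1 (σ d)) = g d) ∧ (∀ d, g (α d) = g d) ∧
      g d0 ≠ g d1 := by
  by_contra hcon
  have hsw : ∀ {Z : Type} (q : D → Z), q d0 = q d1 → ∀ d, q (Equiv.swap d0 d1 d) = q d :=
    fun q hq d => Equiv.apply_swap_eq_self hq d
  have const : ∀ g : D → K, (∀ d, g (Equiv.swap d0 d1 (σ d)) = g d) → (∀ d, g (α d) = g d) →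
      ∀ a b, g a = g b := by
    intro g g1 g2 a b
    have g0 : g d0 = g d1 := by
      by_contra h
      exact hcon ⟨g, g1, g2, h⟩
    induction hc a b with
    | rel x y h =>
      rcases h with rfl | rfl
      · rw [← g1 x, hsw g g0]
      · exact (g2 x).symm
    | refl x => rfl
    | symm x y _ ih => exact ih.symm
    | trans x y z _ _ i1 i2 => exact i1.trans i2
  obtain ⟨u, u1, u2⟩ := orb σ d0 d1 hne s1
  obtain ⟨w, w1, w2⟩ := orb (σ * α) d0 d1 hne s2
  obtain ⟨T, hT, hsum, hTc⟩ := transversal α hα hα'
  have iA : ∀ (g : Option X → K) d, g (some (vert (Equiv.swap d0 d1 (σ d)))) +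
      g none * u (Equiv.swap d0 d1 (σ d)) = g (some (vert d)) + g none * u d := by
    intro g d
    rw [hsw vert v01, hvσ, u1]
  have iB : ∀ (f : Option R → K) d, f (some (face (Equiv.swap d0 d1 (σ (α d))))) +
      f none * w (Equiv.swap d0 d1 (σ (α d))) = f (some (face d)) + f none * w d := by
    intro f d
    have := w1 d
    rw [Equiv.Perm.mul_apply] at this
    rw [hsw face f01, hfφ, this]
  have rA := rank_ge α hα T hT vert hv u d0 d1 v01 u2 (fun g hg =>
    const (fun d => g (some (vert d)) + g none * u d) (iA g) hg)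
  have rB := rank_ge α hα T hT face hf w d0 d1 f01 w2 (fun f hf' =>
    const (fun d => f (some (face d)) + f none * w d) (fun d => by
      have := iB f (α d)
      rw [hα] at this
      exact this.trans (hf' d)) hf')
  have key := rank_bound (LL α T vert u) (LL α T face w) (fun g f => by
    set G : D → K := fun d => g (some (vert d)) + g none * u d with hG
    set F : D → K := fun d => f (some (face d)) + f none * w d with hF
    have e1 : LL α T vert u g ⬝ᵥ LL α T face w f =
        ∑ e ∈ T, (G e + G (α e)) * (F e + F (α e)) := by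
      rw [← sum_coe_sort T]
      rfl
    have e2 := hsum (fun d => (G d + G (α d)) * F d)
    have e3 : ∑ d, G (α d) * F d = ∑ d, G d * F d := by
      rw [← Equiv.sum_comp (Equiv.swap d0 d1 * σ * α) (fun d => G d * F d)]
      refine sum_congr rfl (fun d _ => ?_)
      have a1 : G (Equiv.swap d0 d1 (σ (α d))) = G (α d) := iA g (α d)
      have a2 : F (Equiv.swap d0 d1 (σ (α d))) = F d := iB f d
      simp only [Equiv.Perm.mul_apply]
      rw [a1, a2]
    have e4 : ∑ d, (G d + G (α d)) * F d = 0 := by
      simp only [add_mul]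
      rw [sum_add_distrib, e3, two]
    rw [e1, ← e4, e2]
    refine sum_congr rfl (fun d _ => ?_)
    simp only [hα]
    ring)
  rw [Fintype.card_coe] at key
  omega

end Pool.Agent.H.MP_1d20a2_co
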