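import Pool.Agent.H.MP_1d20a2_co.Defs
import Pool.Agent.H.MP_1d20a2_co.Split
import Pool.Agent.H.MP_1d20a2_co.Core

namespace Pool.Agent.H.MP_1d20a2_co

open Finset

variable {D : Type} [Fintype D] {σ α : Equiv.Perm D} {n : ℕ}

theorem region_surj (σ α : Equiv.Perm D) : Function.Surjective (region σ α) :=
  Quotient.mk_surjective

theorem region_eq {a b : D} : region σ α a = region σ α b ↔ (σ * α).SameCycle a b :=
  Quotient.eq (r := Equiv.Perm.SameCycle.setoid (σ * α))

theorem region_step (d : D) : region σ α (σ (α d)) = region σ α d := by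
  rw [region_eq]
  exact (Equiv.Perm.sameCycle_apply_left (f := σ * α)).2 (Equiv.Perm.SameCycle.refl _ _)

theorem split' [DecidableEq D] (H : IsNonSplitDiagram σ α n) (d0 d1 : D) (hne : d0 ≠ d1)
    (s1 : σ.SameCycle d0 d1) (f01 : region σ α d0 = region σ α d1) :
    ∃ g : D → K, (∀ d, g (Equiv.swap d0 d1 (σ d)) = g d) ∧ (∀ d, g (α d) = g d) ∧
      g d0 ≠ g d1 := by
  classical
  let X := Quotient (Equiv.Perm.SameCycle.setoid σ)
  let vert : D → X := Quotient.mk _
  have hveq : ∀ a b, vert a = vert b ↔ σ.SameCycle a b := fun a b =>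
    Quotient.eq (r := Equiv.Perm.SameCycle.setoid σ)
  haveI : Finite (Region σ α) := Finite.of_surjective _ (region_surj σ α)
  letI : Fintype (Region σ α) := Fintype.ofFinite _
  letI : Fintype X := Fintype.ofFinite _
  have hfour : ∀ (a : D) (i : ℕ), (σ ^ i) a ∈ ({a, σ a, σ (σ a), σ (σ (σ a))} : Finset D) := by
    intro a i
    induction i with
    | zero => simp
    | succ i ih =>
      rw [pow_succ', Equiv.Perm.mul_apply]
      simp only [mem_insert, mem_singleton] at ih ⊢
      rcases ih with h | h | h | h <;> rw [h] <;> simp [H.rot_four]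
  have hX : Fintype.card D ≤ 4 * Fintype.card X := by
    have := card_le_mul_card_image (f := vert) (univ : Finset D) 4 (fun x hx => by
      obtain ⟨a, -, rfl⟩ := mem_image.1 hx
      refine le_trans (card_le_card (t := {a, σ a, σ (σ a), σ (σ (σ a))}) ?_) card_le_four
      intro b hb
      obtain ⟨i, hi⟩ := ((hveq a b).1 (mem_filter.1 hb).2.symm).exists_nat_pow_eq
      exact hi ▸ hfour a i)
    exact this.trans (Nat.mul_le_mul_left _ (card_le_univ _))
  have hR : Fintype.card (Region σ α) = n + 2 := by rw [← Nat.card_eq_fintype_card, H.euler]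
  have hD := H.card_darts
  exact split σ α H.inv H.inv_ne H.connected vert Quotient.mk_surjective
    (fun d => (hveq _ _).2 (Equiv.Perm.sameCycle_apply_left.2 (Equiv.Perm.SameCycle.refl _ _)))
    (region σ α) (region_surj σ α) region_step (by omega) d0 d1 hne s1 (region_eq.1 f01)
    ((hveq _ _).2 s1) f01

theorem adj_ne (H : IsNonSplitDiagram σ α n) (d0 : D) : region σ α (σ d0) ≠ region σ α d0 := by
  classical
  intro h
  have hne : d0 ≠ σ d0 := fun e => H.rot_two d0 (by rw [← e, ← e])
  obtain ⟨g, g1, g2, g3⟩ := split' H d0 (σ d0) hne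
    (Equiv.Perm.sameCycle_apply_right.2 (Equiv.Perm.SameCycle.refl _ _)) h.symm
  have g4 : g (σ d0) = g d0 + 1 := by
    revert g3
    generalize g (σ d0) = a
    generalize g d0 = b
    revert a b
    decide
  let k : D → K := fun d => g d + if d = d0 then 1 else 0
  have k1 : ∀ d, k (σ d) = k d := by
    intro d
    by_cases c1 : d = d0
    · subst c1
      simp [k, hne.symm, g4]
    · by_cases c2 : σ d = d0
      · have := g1 d
        rw [c2, Equiv.swap_apply_left] at this
        simp [k, c1, c2, ← this, g4]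
      · have := g1 d
        rw [Equiv.swap_apply_of_ne_of_ne c2 (fun e => c1 (σ.injective e))] at this
        simp [k, c1, c2, this]
  have s1 : ∑ d, g d = 0 :=
    sum_ninvolution α (fun a => by rw [g2, two]) (fun a _ => H.inv_ne a) (fun _ => mem_univ _)
      H.inv
  have s2 : ∑ d, k d = 0 :=
    sum_ninvolution (fun d => σ (σ d)) (fun a => by rw [k1, k1, two]) (fun a _ => H.rot_two a)
      (fun _ => mem_univ _) H.rot_four
  simp [k, sum_add_distrib, s1] at s2

theorem reduced_of_noCut (H : IsNonSplitDiagram σ α n) (hc : NoCutVertex σ α) : Reduced σ α := by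
  classical
  intro d0 h
  have s1 : σ.SameCycle d0 (σ (σ d0)) := Equiv.Perm.sameCycle_apply_right.2
    (Equiv.Perm.sameCycle_apply_right.2 (Equiv.Perm.SameCycle.refl _ _))
  obtain ⟨g, g1, g2, g3⟩ := split' H d0 (σ (σ d0)) (H.rot_two d0).symm s1 h.symm
  refine hc ⟨d0, {d | g d = g d0}, ⟨d0, rfl⟩, ⟨σ (σ d0), g3.symm⟩, fun d => ?_, fun d hd => ?_⟩
  · simp only [Set.mem_setOf_eq, g2]
  · have a1 : σ d ≠ d0 := by
      rintro rfl
      exact hd (Equiv.Perm.sameCycle_apply_left.2 (Equiv.Perm.SameCycle.refl _ _))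
    have a2 : σ d ≠ σ (σ d0) := by
      intro e
      rw [σ.injective e] at hd
      exact hd (Equiv.Perm.sameCycle_apply_right.2 (Equiv.Perm.SameCycle.refl _ _))
    have := g1 d
    rw [Equiv.swap_apply_of_ne_of_ne a1 a2] at this
    simp only [Set.mem_setOf_eq, this]

end Pool.Agent.H.MP_1d20a2_co
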