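import Mathlib

/-!
A link projection as a combinatorial map: darts (half-strands) `D`, the rotation `σ` around the
crossings and the involution `α` exchanging the two darts of a strand.  The regions are the
cycles of `σ * α`; the dart `d` also names the corner between `σ⁻¹ d` and `d`, which lies in the
region of `d`, and the two sides of the strand `{d, α d}` are the regions of `d` and of `α d`.
-/

namespace Pool.Agent.H.MP_1d20a2_co

variable {D : Type}

/-- The regions: cycles of `σ * α`. -/
def Region (σ α : Equiv.Perm D) : Type := Quotient (Equiv.Perm.SameCycle.setoid (σ * α))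

/-- The region of a dart (corner). -/
def region (σ α : Equiv.Perm D) (d : D) : Region σ α := Quotient.mk _ d

/-- A connected 4-valent map on the sphere with `n` vertices: every cycle of `σ` has length 4,
`α` is an involution without fixed point, the map is connected, and Euler's relation
`n - 2n + F = 2` holds. -/
structure IsNonSplitDiagram [Fintype D] (σ α : Equiv.Perm D) (n : ℕ) : Prop where
  card_darts : Fintype.card D = 4 * n
  rot_four : ∀ d, σ (σ (σ (σ d))) = d
  rot_two : ∀ d, σ (σ d) ≠ d
  inv : ∀ d, α (α d) = d
  inv_ne : ∀ d, α d ≠ d
  connected : ∀ a b, Relation.EqvGen (fun x y => y = σ x ∨ y = α x) a b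
  euler : Nat.card (Region σ α) = n + 2

/-- No crossing is nugatory: opposite corners of a crossing lie in different regions. -/
def Reduced (σ α : Equiv.Perm D) : Prop := ∀ d, region σ α (σ (σ d)) ≠ region σ α d

/-- No crossing is a cut vertex: the strands cannot be split into two nonempty classes that
share no crossing other than the crossing of `x`. -/
def NoCutVertex (σ α : Equiv.Perm D) : Prop :=
  ¬ ∃ (x : D) (A : Set D), A.Nonempty ∧ Aᶜ.Nonempty ∧ (∀ d, d ∈ A ↔ α d ∈ A) ∧
    ∀ d, ¬ σ.SameCycle x d → (d ∈ A ↔ σ d ∈ A)

/-- The dual graph: two regions are adjacent when they are the two sides of a strand. -/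
def dual (σ α : Equiv.Perm D) : SimpleGraph (Region σ α) :=
  SimpleGraph.fromRel fun r s => ∃ d, region σ α d = r ∧ region σ α (α d) = s

end Pool.Agent.H.MP_1d20a2_co
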